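import Pool.Agent.H73.PHS.Stmts

/-! Board phs (helper73, MP_e1af46_an), row PRP: the extension is proper. -/

set_option autoImplicit false

open Set Filter Topology MeasureTheory Metric

namespace Pool.PHS

theorem PRP_thm (hCLM : CLMStmt) (hHFC : HFCStmt) : PRPStmt := by
  intro n hn D E K f F hH hf hF hFf hmap hsurj
  obtain ⟨hΩo, hΩb, hΩc, hΩE, _, hEne, hnear⟩ := hHFC n (by omega) D E K hH
  have hcE : IsClosed E := hH.closed_E
  have hFc : ContinuousOn F (D ∪ K) := hF.continuousOn
  -- points at positive distance from `E`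
  have hpos : ∀ ε : ℝ, 0 < ε → ∀ z, ε ≤ infDist z E → z ∈ D ∪ K := by
    intro ε hε z hz
    by_contra hcon
    have h1 : z ∈ (D ∪ K)ᶜ := hcon
    rw [hΩE] at h1
    rw [infDist_zero_of_mem h1] at hz
    linarith
  have hcpt : ∀ ε : ℝ, 0 < ε → IsCompact {z | ε ≤ infDist z E} := by
    intro ε hε
    apply Metric.isCompact_of_isClosed_isBounded
    · exact isClosed_le continuous_const (continuous_infDist_pt E)
    · exact hΩb.subset (fun z hz => hpos ε hε z hz)
  have hnotE : ∀ z ∈ D ∪ K, z ∉ E := by
    intro z hz hzE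
    rw [← hΩE] at hzE
    exact hzE hz
  -- a compact subset of `Ω` has positive distance from `E`
  have hdist : ∀ L : Set (Cn n), IsCompact L → L ⊆ D ∪ K → ∃ η : ℝ, 0 < η ∧ ∀ z ∈ L, η ≤ infDist z E := by
    intro L hL hLΩ
    have h1 : Disjoint L E := by
      rw [Set.disjoint_left]
      intro z hz
      exact hnotE z (hLΩ hz)
    obtain ⟨δ, hδ, hd⟩ := h1.exists_thickenings hL hcE
    refine ⟨δ, hδ, fun z hz => ?_⟩
    by_contra hlt
    push Not at hlt
    have h2 : z ∈ thickening δ E := (mem_thickening_iff_infDist_lt hEne).2 hlt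
    have h3 : z ∈ thickening δ L := self_subset_thickening hδ L hz
    exact Set.disjoint_left.1 hd h3 h2
  obtain ⟨s, hs, hsd⟩ := hH.disj.symm.exists_thickenings hH.comp_K hcE
  -- the compact sets
  have hL : ∀ t : ℝ, 0 < t → ∃ L : Set (Cn n), IsCompact L ∧ L ⊆ D ∪ K ∧
      ∀ z ∈ D ∪ K, z ∉ L → F z ∈ thickening t E ∪ thickening t K := by
    intro t ht
    have hQD : (thickening t E ∪ thickening t K)ᶜ ⊆ D := by
      intro z hz
      by_contra hcon
      have h1 : z ∈ Dᶜ := hcon
      rw [hH.compl] at h1
      rcases h1 with h1 | h1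
      · exact hz (Or.inl (self_subset_thickening ht E h1))
      · exact hz (Or.inr (self_subset_thickening ht K h1))
    have hQc : IsCompact (thickening t E ∪ thickening t K)ᶜ := by
      apply Metric.isCompact_of_isClosed_isBounded
      · exact (isOpen_thickening.union isOpen_thickening).isClosed_compl
      · exact hH.bdd_D.subset hQD
    refine ⟨K ∪ (D ∩ f ⁻¹' (thickening t E ∪ thickening t K)ᶜ),
      hH.comp_K.union (hf.proper _ hQD hQc), ?_, ?_⟩
    · rintro z (hz | hz)
      · exact Or.inr hz
      · exact Or.inl hz.1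
    · intro z hz hzL
      have hzK : z ∉ K := fun h => hzL (Or.inl h)
      have hzD : z ∈ D := hz.resolve_right hzK
      by_contra hcon
      apply hzL
      right
      refine ⟨hzD, ?_⟩
      show f z ∈ (thickening t E ∪ thickening t K)ᶜ
      rw [← hFf hzD]
      exact hcon
  obtain ⟨L, hLc, hLΩ, hLm⟩ := hL s hs
  have hdis : ∀ y, y ∈ thickening s E → y ∈ thickening s K → False := by
    intro y h1 h2
    exact Set.disjoint_left.1 hsd h2 h1
  obtain ⟨ε, hε, hcase⟩ := hCLM n hn (D ∪ K) L ((D ∪ K) ∩ F ⁻¹' thickening s E)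
    ((D ∪ K) ∩ F ⁻¹' thickening s K) hΩo hΩb hΩc.isPreconnected
    (by rw [hΩE]; exact hH.conn_E) hLc hLΩ
    (hFc.isOpen_inter_preimage hΩo isOpen_thickening)
    (hFc.isOpen_inter_preimage hΩo isOpen_thickening)
    (by
      rw [Set.disjoint_left]
      intro z h1 h2
      exact hdis _ h1.2 h2.2)
    (by
      intro z hz
      rcases hLm z hz.1 hz.2 with h | h
      · exact Or.inl ⟨hz.1, h⟩
      · exact Or.inr ⟨hz.1, h⟩)
  rw [hΩE] at hcase
  rcases hcase with hA | hB
  · -- near `E` all values are near `E`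
    intro w hw
    have hw0 : 0 < infDist w E := by
      rcases lt_or_eq_of_le (infDist_nonneg (x := w) (s := E)) with h | h
      · exact h
      · exact absurd ((hcE.mem_iff_infDist_zero hEne).2 h.symm) (hnotE w hw)
    set ρ : ℝ := infDist w E / 2 with hρ
    have hρ0 : 0 < ρ := by positivity
    obtain ⟨L', hL'c, hL'Ω, hL'm⟩ := hL (min s (ρ / 2)) (by positivity)
    obtain ⟨η, hη, hη'⟩ := hdist L' hL'c hL'Ω
    have hm0 : 0 < min ε η := by positivity
    refine ⟨ρ, hρ0, ?_⟩
    have hsub : {z | z ∈ D ∪ K ∧ ‖F z - w‖ ≤ ρ} =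
        {z | min ε η ≤ infDist z E} ∩ F ⁻¹' closedBall w ρ := by
      ext z
      constructor
      · rintro ⟨hz, hzw⟩
        refine ⟨?_, ?_⟩
        · show min ε η ≤ infDist z E
          by_contra hlt
          push Not at hlt
          have h1 : infDist z E < ε := lt_of_lt_of_le hlt (min_le_left _ _)
          have h2 : infDist z E < η := lt_of_lt_of_le hlt (min_le_right _ _)
          have h3 := (hA z hz h1).2
          have h4 : z ∉ L' := fun h => absurd (hη' z h) (not_le.2 h2)
          have h5 : F z ∈ thickening (min s (ρ / 2)) E := by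
            rcases hL'm z hz h4 with h | h
            · exact h
            · exact (hdis _ h3 (thickening_mono (min_le_left _ _) K h)).elim
          have h6 : infDist (F z) E < min s (ρ / 2) :=
            (mem_thickening_iff_infDist_lt hEne).1 h5
          have h7 : infDist (F z) E < ρ / 2 := lt_of_lt_of_le h6 (min_le_right _ _)
          have h8 : infDist w E ≤ infDist (F z) E + dist w (F z) := infDist_le_infDist_add_dist
          rw [dist_comm, dist_eq_norm] at h8
          linarith
        · show F z ∈ closedBall w ρ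
          rw [mem_closedBall, dist_eq_norm]
          exact hzw
      · rintro ⟨hz, hzw⟩
        refine ⟨hpos _ hm0 z hz, ?_⟩
        rw [← dist_eq_norm]
        exact hzw
    rw [hsub]
    have hM := hcpt (min ε η) hm0
    have hcl : IsClosed ({z | min ε η ≤ infDist z E} ∩ F ⁻¹' closedBall w ρ) :=
      (hFc.mono (fun z hz => hpos _ hm0 z hz)).preimage_isClosed_of_isClosed hM.isClosed
        isClosed_closedBall
    exact hM.of_isClosed_subset hcl Set.inter_subset_left
  · -- near `E` all values are near `K`: impossible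
    exfalso
    have hM := hcpt ε hε
    have hMF : IsCompact (F '' {z | ε ≤ infDist z E}) :=
      hM.image_of_continuousOn (hFc.mono (fun z hz => hpos _ hε z hz))
    obtain ⟨η, hη, hη'⟩ := hdist _ hMF (by
      rintro _ ⟨z, hz, rfl⟩
      exact hmap (hpos _ hε z hz))
    obtain ⟨w, hwD, hw⟩ := hnear (min s η) (by positivity)
    obtain ⟨z, hzD, hzw⟩ := hsurj hwD
    have hFz : F z = w := by rw [hFf hzD]; exact hzw
    have hzΩ : z ∈ D ∪ K := Or.inl hzD
    have h1 : infDist z E < ε := by
      by_contra hcon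
      push Not at hcon
      have h2 := hη' (F z) ⟨z, hcon, rfl⟩
      rw [hFz] at h2
      exact absurd (lt_of_lt_of_le hw (min_le_right _ _)) (not_lt.2 h2)
    have h3 := (hB z hzΩ h1).2
    have h4 : F z ∈ thickening s E := by
      rw [hFz]
      exact (mem_thickening_iff_infDist_lt hEne).2 (lt_of_lt_of_le hw (min_le_left _ _))
    exact hdis _ h4 h3

end Pool.PHS
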